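import Mathlib
import Pool.Agent.Q210.RS.Prob

namespace Pool.Agent.Results.MP_b91784_pr.SmallMeanFails

open MeasureTheory Set Filter Topology ProbabilityTheory
open scoped Pointwise BoundedContinuousFunction RealInnerProductSpace
open Pool.Agent.Q210.RS (IsBC R)

/-- `X` is B-convex: for some `n ≥ 2` and `η > 0`, any `n` vectors of the unit ball have a signed
sum of norm at most `n (1 - η)`. -/
def IsBConvex (X : Type*) [NormedAddCommGroup X] [NormedSpace ℝ X] : Prop :=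
  ∃ (n : ℕ) (η : ℝ), 2 ≤ n ∧ 0 < η ∧ ∀ x : Fin n → X, (∀ i, ‖x i‖ ≤ 1) →
    ∃ σ : Fin n → ℝ, (∀ i, σ i = 1 ∨ σ i = -1) ∧ ‖∑ i, σ i • x i‖ ≤ n * (1 - η)

/-- `Ψ` is a random set: its values are in `BC(X)` and `R ∘ Ψ` is strongly measurable. -/
def IsRandomSet {X : Type*} [NormedAddCommGroup X] [NormedSpace ℝ X] {Ω : Type*}
    [MeasurableSpace Ω] (Ψ : Ω → Set X) : Prop :=
  (∀ ω, IsBC (Ψ ω)) ∧ StronglyMeasurable (fun ω => R (Ψ ω))

/-- `E(Ψ) = U`: `R ∘ Ψ` is Bochner integrable with integral `R(U)`. -/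
def HasExpectation {X : Type*} [NormedAddCommGroup X] [NormedSpace ℝ X] {Ω : Type*}
    [MeasurableSpace Ω] (μ : Measure Ω) (Ψ : Ω → Set X) (U : Set X) : Prop :=
  IsBC U ∧ Integrable (fun ω => R (Ψ ω)) μ ∧ ∫ ω, R (Ψ ω) ∂μ = R U

/-- The random sets `Ψ 0, Ψ 1, ...` are independent: so are the random vectors `R ∘ Ψ n`. -/
def IndepSets {X : Type*} [NormedAddCommGroup X] [NormedSpace ℝ X] {Ω : Type*}
    [MeasurableSpace Ω] (μ : Measure Ω) (Ψ : ℕ → Ω → Set X) : Prop :=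
  iIndepFun (m := fun _ => borel (Metric.sphere (0 : StrongDual ℝ X) 1 →ᵇ ℝ))
    (fun n ω => R (Ψ n ω)) μ

/-- `‖A‖ = sup_{a ∈ A} ‖a‖`. -/
noncomputable def nrm {X : Type*} [NormedAddCommGroup X] (A : Set X) : ℝ :=
  sSup ((fun a => ‖a‖) '' A)

/-- A Hilbert space is B-convex. -/
lemma hilbert_bconvex (X : Type*) [NormedAddCommGroup X] [InnerProductSpace ℝ X] :
    IsBConvex X := by
  refine ⟨2, 1 / 4, le_rfl, by norm_num, ?_⟩
  intro x hx
  have hp := parallelogram_law_with_norm ℝ (x 0) (x 1)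
  have h0 := hx 0
  have h1 := hx 1
  have n0 := norm_nonneg (x 0)
  have n1 := norm_nonneg (x 1)
  by_cases h : ‖x 0 + x 1‖ ≤ 3 / 2
  · refine ⟨![1, 1], ?_, ?_⟩
    · intro i; fin_cases i <;> simp
    · simp only [Fin.sum_univ_two, Matrix.cons_val_zero, Matrix.cons_val_one, one_smul]
      norm_num
      exact h
  · refine ⟨![1, -1], ?_, ?_⟩
    · intro i; fin_cases i <;> simp
    · simp only [Fin.sum_univ_two, Matrix.cons_val_zero, Matrix.cons_val_one, one_smul, neg_smul,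
        ← sub_eq_add_neg]
      norm_num
      by_contra h'
      push Not at h h'
      nlinarith [norm_nonneg (x 0 - x 1)]

/-- The negated form of the question: in the B-convex space `ℓ₂`, for `ε = 1/8` and every
`δ > 0`, there is a set `U` with `‖U‖ ≤ δ` and an independent sequence of random subsets of the
unit ball with common expectation `U` such that the upper limit of the norms of the averages
exceeds `ε` at every `ω`. -/
theorem result : ∃ (X : Type) (_ : NormedAddCommGroup X) (_ : NormedSpace ℝ X)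
    (_ : CompleteSpace X), IsBConvex X ∧ ∃ ε : ℝ, 0 < ε ∧ ∀ δ : ℝ, 0 < δ →
    ∃ (Ω : Type) (_ : MeasurableSpace Ω) (P : Measure Ω) (_ : IsProbabilityMeasure P)
      (Ψ : ℕ → Ω → Set X) (U : Set X),
      (∀ u ∈ U, ‖u‖ ≤ δ) ∧ (∀ n, IsRandomSet (Ψ n)) ∧ (∀ n ω, ∀ x ∈ Ψ n ω, ‖x‖ ≤ 1) ∧
      IndepSets P Ψ ∧ (∀ n, HasExpectation P (Ψ n) U) ∧
      ∀ ω, ε < limsup (fun n : ℕ => nrm ((n : ℝ)⁻¹ • ∑ i ∈ Finset.range n, Ψ i ω)) atTop := by
  have he := Pool.Agent.Q210.RS.basisH.orthonormal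
  refine ⟨Pool.Agent.Q210.RS.H, inferInstance, inferInstance, inferInstance,
    hilbert_bconvex _, 1 / 8, by norm_num, ?_⟩
  intro δ hδ
  obtain ⟨s, hs⟩ := exists_pow_lt_of_lt_one hδ (show (1 / 2 : ℝ) < 1 by norm_num)
  have hs1 : ((1 : ℝ) / 2) ^ (s + 1) ≤ δ := by
    rw [pow_succ]
    have : (0 : ℝ) < (1 / 2) ^ s := by positivity
    linarith
  have hs2 : ((1 : ℝ) / 2) ^ (s + 1) ≤ 1 / 2 := by
    rw [pow_succ]
    have : ((1 : ℝ) / 2) ^ s ≤ 1 := pow_le_one₀ (by norm_num) (by norm_num)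
    linarith
  refine ⟨∀ i, Fin (Pool.Agent.Q210.RS.qq (s + 1) i), inferInstance,
    Pool.Agent.Q210.RS.PP (s + 1), inferInstance,
    Pool.Agent.Q210.RS.Psi (Pool.Agent.Q210.RS.basisH) (s + 1),
    Pool.Agent.Q210.RS.UU (Pool.Agent.Q210.RS.basisH) (s + 1), ?_, ?_, ?_, ?_, ?_, ?_⟩
  · intro u hu
    exact ((Pool.Agent.Q210.RS.UU_isBC he (s + 1)).2 u hu).trans hs1
  · intro n
    exact ⟨fun ω => (Pool.Agent.Q210.RS.Psi_isBC he (s + 1) n ω).1,
      Pool.Agent.Q210.RS.Psi_sm he (s + 1) n⟩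
  · intro n ω x hx
    have := (Pool.Agent.Q210.RS.Psi_isBC he (s + 1) n ω).2 x hx
    linarith
  · exact Pool.Agent.Q210.RS.Psi_indep he (s + 1)
  · intro n
    exact ⟨(Pool.Agent.Q210.RS.UU_isBC he (s + 1)).1,
      Pool.Agent.Q210.RS.Psi_integrable he (s + 1) n,
      Pool.Agent.Q210.RS.Psi_exp he (s + 1) n⟩
  · intro ω
    have hb : ∀ n : ℕ, ∀ x ∈ (n : ℝ)⁻¹ • ∑ i ∈ Finset.range n,
        Pool.Agent.Q210.RS.Psi (Pool.Agent.Q210.RS.basisH) (s + 1) i ω, ‖x‖ ≤ 1 := by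
      intro n x hx
      obtain ⟨y, hy, rfl⟩ := hx
      obtain ⟨z, hz, rfl⟩ := (Set.mem_finsetSum _ _ _).mp hy
      have h1 : ‖∑ i ∈ Finset.range n, z i‖ ≤ n := by
        refine (norm_sum_le _ _).trans ?_
        calc ∑ i ∈ Finset.range n, ‖z i‖ ≤ ∑ i ∈ Finset.range n, (1 : ℝ) := by
              apply Finset.sum_le_sum
              intro i hi
              have := (Pool.Agent.Q210.RS.Psi_isBC he (s + 1) i ω).2 _ (hz hi)
              linarith
          _ = n := by simp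
      show ‖(n : ℝ)⁻¹ • ∑ i ∈ Finset.range n, z i‖ ≤ 1
      rw [norm_smul, norm_inv, Real.norm_natCast]
      rcases Nat.eq_zero_or_pos n with h0 | h0
      · simp [h0]
      · rw [inv_mul_le_iff₀ (by exact_mod_cast h0), mul_one]
        exact h1
    have hbn : ∀ n : ℕ, nrm ((n : ℝ)⁻¹ • ∑ i ∈ Finset.range n,
        Pool.Agent.Q210.RS.Psi (Pool.Agent.Q210.RS.basisH) (s + 1) i ω) ≤ 1 := by
      intro n
      have hne : IsBC ((n : ℝ)⁻¹ • ∑ i ∈ Finset.range n,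
          Pool.Agent.Q210.RS.Psi (Pool.Agent.Q210.RS.basisH) (s + 1) i ω) :=
        (IsBC.sum _ (fun i _ => (Pool.Agent.Q210.RS.Psi_isBC he (s + 1) i ω).1)).smul _
      apply csSup_le (hne.nonempty.image _)
      rintro _ ⟨x, hx, rfl⟩
      exact hb n x hx
    have hfreq : ∃ᶠ n : ℕ in atTop, 1 / 4 ≤ nrm ((n : ℝ)⁻¹ • ∑ i ∈ Finset.range n,
        Pool.Agent.Q210.RS.Psi (Pool.Agent.Q210.RS.basisH) (s + 1) i ω) := by
      rw [frequently_atTop]
      intro N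
      refine ⟨2 ^ (N + 1) - 1, ?_, ?_⟩
      · have : N + 1 < 2 ^ (N + 1) := Nat.lt_two_pow_self
        omega
      · obtain ⟨x, hx, hx4⟩ := Pool.Agent.Q210.RS.big he (s + 1) N ω
        refine hx4.trans ?_
        apply le_csSup
        · refine ⟨1, ?_⟩
          rintro _ ⟨x, hx, rfl⟩
          exact hb _ x hx
        · exact ⟨x, hx, rfl⟩
    have h2 := le_limsup_of_frequently_le hfreq
      (isBoundedUnder_of ⟨1, hbn⟩)
    linarith

end Pool.Agent.Results.MP_b91784_pr.SmallMeanFails
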